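import Mathlib

namespace Pool.Agent.Results.MP_74d8ca_lc.LowerBound

/-- local complement: toggle the adjacency of distinct neighbours of `a` -/
def locComp {V : Type} (G : SimpleGraph V) (a : V) : SimpleGraph V where
  Adj x y := x ≠ y ∧ ¬ (G.Adj x y ↔ G.Adj a x ∧ G.Adj a y)
  symm := ⟨fun x y h => ⟨h.1.symm, by rw [G.adj_comm, and_comm]; exact h.2⟩⟩
  loopless := ⟨fun _ h => h.1 rfl⟩

open Classical in
/-- local inversion of a bicoloured graph, colours in `{-1, 1}` -/
noncomputable def locInv {V : Type} (B : SimpleGraph V × (V → ℤˣ)) (a : V) :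
    SimpleGraph V × (V → ℤˣ) :=
  (locComp B.1 a, fun x => if B.1.Adj a x then -B.2 x else B.2 x)

open Classical in
lemma gram {V : Type} (w : List V) : ∀ B : SimpleGraph V × (V → ℤˣ),
    ∃ A : Matrix V (Fin w.length) (ZMod 2), ∀ x y, ∑ i, A x i * A y i =
      if (if x = y then (w.foldl locInv B).2 x = B.2 x else
        ((w.foldl locInv B).1.Adj x y ↔ B.1.Adj x y)) then 0 else 1 := by
  induction w with
  | nil => exact fun B => ⟨0, by simp⟩
  | cons a w ih =>
    intro B
    obtain ⟨A, h⟩ := ih (locInv B a)
    refine ⟨fun x => Fin.cons (if B.1.Adj a x then 1 else 0) (A x), fun x y => ?_⟩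
    simp only [List.length_cons, Fin.sum_univ_succ, Fin.cons_zero, Fin.cons_succ, h, List.foldl_cons]
    generalize w.foldl locInv (locInv B a) = E
    by_cases e : x = y
    · subst e
      rcases Int.units_eq_one_or (B.2 x) with b | b <;> rcases Int.units_eq_one_or (E.2 x) with c | c <;>
        by_cases d : B.1.Adj a x <;> simp [locInv, b, c, d] <;> decide
    · by_cases b : B.1.Adj a x <;> by_cases c : B.1.Adj a y <;> by_cases d : B.1.Adj x y <;>
        by_cases f : E.1.Adj x y <;> simp [locInv, locComp, e, b, c, d, f] <;> decide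

theorem result {V : Type} [Fintype V] (G : SimpleGraph V) (β : V → ℤˣ) (w : List V)
    (h2 : w.foldl locInv (G, β) = (G, -β)) : Fintype.card V ≤ w.length := by
  classical
  obtain ⟨A, h⟩ := gram w (G, β)
  have : A * A.transpose = 1 := by
    ext x y
    rw [Matrix.mul_apply, Matrix.one_apply]
    simp only [Matrix.transpose_apply, h, h2]
    rcases Int.units_eq_one_or (β x) with b | b <;> split_ifs <;> simp_all
  have e := Matrix.rank_mul_le_left A A.transpose
  rw [this, Matrix.rank_one] at e
  exact e.trans (A.rank_le_card_width.trans (by simp))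

end Pool.Agent.Results.MP_74d8ca_lc.LowerBound
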